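import Pool.Agent.helper31.GPR.Spec
set_option autoImplicit false
namespace Pool.Agent.GPR
open Pool.Agent.helper25.QST

theorem MLB : MLB_stmt := by
  intro V _ _ S J hL y h hy hyh
  obtain ⟨P, hP⟩ : ∃ P : Submodule (ZMod 2) V, P = Submodule.span (ZMod 2) {J y h, h, y} := ⟨_, rfl⟩
  rw [← hP]
  have p1 : J y h ∈ P := by rw [hP]; exact Submodule.subset_span (by simp)
  have p2 : h ∈ P := by rw [hP]; exact Submodule.subset_span (by simp)
  have p3 : y ∈ P := by rw [hP]; exact Submodule.subset_span (by simp)
  have q1 : Submodule.span (ZMod 2) {y} ≤ P := by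
    rw [Submodule.span_le]
    rintro _ rfl
    exact p3
  have q2 : Submodule.span (ZMod 2) {y + h} ≤ P := by
    rw [Submodule.span_le]
    rintro _ rfl
    exact P.add_mem p3 p2
  have q3 : Submodule.span (ZMod 2) {y, y + h} ≤ P := by
    rw [Submodule.span_le]
    rintro _ (rfl | rfl)
    · exact p3
    · exact P.add_mem p3 p2
  have r1 := q1 (hL.quad y hy h)
  have r2 := hL.sym y hy (y + h) hyh
  obtain ⟨β, γ, hbg⟩ := Submodule.mem_span_pair.1 r2
  rw [map_add, hL.self y hy, zero_add] at hbg
  have r3 := q2 (hL.quad (y + h) hyh h)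
  have s1 : J (y + h) y + J (y + h) h = 0 := by
    rw [← map_add]
    exact hL.self _ hyh
  have s2 : J (y + h) y = J (y + h) h := by
    rw [eq_neg_of_add_eq_zero_left s1, ZModModule.neg_eq_self]
  rw [s2] at hbg
  -- J y h = k + u
  have s3 : J y h = J (y + h) h + (β • y + γ • (y + h)) := by
    rw [hbg]
    have : J (y + h) h + (J y h + J (y + h) h) = J y h + (J (y + h) h + J (y + h) h) := by abel
    rw [this, ZModModule.add_self, add_zero]
  have hk : J (y + h) h ∈ P := by
    have : J (y + h) h = J y h - (β • y + γ • (y + h)) := by rw [s3]; abel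
    rw [this]
    exact P.sub_mem p1 (P.add_mem (P.smul_mem _ p3) (P.smul_mem _ (P.add_mem p3 p2)))
  have s4 : J (y + h) (J y h) = J (y + h) (J (y + h) h) + β • J (y + h) h := by
    rw [s3, map_add, map_add, map_smul, map_smul, hL.self _ hyh, smul_zero, add_zero, s2]
  have t1 : J y (J y h) ∈ P := by
    have : J y (J y h) = (J y (J y h) + J y h + h) - J y h - h := by abel
    rw [this]
    exact P.sub_mem (P.sub_mem r1 p1) p2
  have t2 : J (y + h) (J (y + h) h) ∈ P := by
    have : J (y + h) (J (y + h) h) = (J (y + h) (J (y + h) h) + J (y + h) h + h) - J (y + h) h - h := by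
      abel
    rw [this]
    exact P.sub_mem (P.sub_mem r3 hk) p2
  rw [LinearMap.add_apply, s4]
  exact P.add_mem t1 (P.add_mem t2 (P.smul_mem _ hk))

end Pool.Agent.GPR
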