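import Pool.Agent.helper31.GPR.Spec
set_option autoImplicit false
namespace Pool.Agent.GPR
open Pool.Agent.helper25.QST

theorem RKB_id0 {R : Type} [Ring R] (h2 : ∀ t : R, t + t = 0) (A B C D : R) :
    (A + B) * (A + C) + (A + C) * (A + B) =
      (((A + B + C + D) * (A + B + C + D) + (A + B + C + D) + 1) + (A + B + C) * D +
        D * ((A + B + C) + D + 1)) + (A * A + A + 1) + (B * B + B + 1) + (C * C + C + 1) := by
  rw [← sub_eq_zero]
  have h : (A + B) * (A + C) + (A + C) * (A + B) -
      ((((A + B + C + D) * (A + B + C + D) + (A + B + C + D) + 1) + (A + B + C) * D +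
        D * ((A + B + C) + D + 1)) + (A * A + A + 1) + (B * B + B + 1) + (C * C + C + 1)) =
      -((B * B + C * C + (A + B + C) * D + D * (A + B + C) + D * D + D + A + B + C + (1 + 1)) +
      (B * B + C * C + (A + B + C) * D + D * (A + B + C) + D * D + D + A + B + C + (1 + 1))) := by
    noncomm_ring
  rw [h, h2, neg_zero]

theorem RKB_id1 {R : Type} [Ring R] (h2 : ∀ t : R, t + t = 0) (A B C D : R) :
    (A + B) * (A + C) + (A + C) * (A + B) =
      (((A + B + C + 1 + D) * (A + B + C + 1 + D) + (A + B + C + 1 + D) + 1) + (A + B + C + 1) * D +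
        D * ((A + B + C + 1) + D + 1)) + (A * A + A + 1) + (B * B + B + 1) + (C * C + C + 1) := by
  rw [← sub_eq_zero]
  have h : (A + B) * (A + C) + (A + C) * (A + B) -
      ((((A + B + C + 1 + D) * (A + B + C + 1 + D) + (A + B + C + 1 + D) + 1) + (A + B + C + 1) * D +
        D * ((A + B + C + 1) + D + 1)) + (A * A + A + 1) + (B * B + B + 1) + (C * C + C + 1)) =
      -((B * B + C * C + (A + B + C + 1) * D + D * (A + B + C + 1) + D * D + D + A + B + C + (1 + 1) +
        (A + B + C + 1)) +
      (B * B + C * C + (A + B + C + 1) * D + D * (A + B + C + 1) + D * D + D + A + B + C + (1 + 1) +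
        (A + B + C + 1))) := by
    noncomm_ring
  rw [h, h2, neg_zero]

section aux

variable {V : Type} [AddCommGroup V] [Module (ZMod 2) V] [Finite V]

theorem RKB_add (f g : Module.End (ZMod 2) V) {a b : ℕ}
    (hf : Module.finrank (ZMod 2) (LinearMap.range f) ≤ a)
    (hg : Module.finrank (ZMod 2) (LinearMap.range g) ≤ b) :
    Module.finrank (ZMod 2) (LinearMap.range (f + g)) ≤ a + b := by
  have h1 : LinearMap.range (f + g) ≤ LinearMap.range f ⊔ LinearMap.range g := by
    rintro _ ⟨v, rfl⟩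
    exact Submodule.add_mem_sup ⟨v, rfl⟩ ⟨v, rfl⟩
  have h2 := Submodule.finrank_mono h1
  have h3 := Submodule.finrank_add_le_finrank_add_finrank (LinearMap.range f) (LinearMap.range g)
  omega

theorem RKB_mulr (f g : Module.End (ZMod 2) V) {b : ℕ}
    (hg : Module.finrank (ZMod 2) (LinearMap.range g) ≤ b) :
    Module.finrank (ZMod 2) (LinearMap.range (f * g)) ≤ b := by
  have h1 : LinearMap.range (f * g) = (LinearMap.range g).map f := LinearMap.range_comp g f
  rw [h1]
  exact (Submodule.finrank_map_le f _).trans hg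

theorem RKB_mull (f g : Module.End (ZMod 2) V) {b : ℕ}
    (hf : Module.finrank (ZMod 2) (LinearMap.range f) ≤ b) :
    Module.finrank (ZMod 2) (LinearMap.range (f * g)) ≤ b := by
  have h1 : LinearMap.range (f * g) ≤ LinearMap.range f := LinearMap.range_comp_le_range g f
  exact (Submodule.finrank_mono h1).trans hf

omit [Finite V] in
theorem RKB_one (f : Module.End (ZMod 2) V) (w : V)
    (hf : ∀ v, f v ∈ Submodule.span (ZMod 2) {w}) :
    Module.finrank (ZMod 2) (LinearMap.range f) ≤ 1 := by
  have h1 : LinearMap.range f ≤ Submodule.span (ZMod 2) {w} := by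
    rintro _ ⟨v, rfl⟩
    exact hf v
  refine (Submodule.finrank_mono h1).trans ?_
  have h2 := finrank_span_finset_le_card (R := ZMod 2) (M := V) {w}
  unfold Set.finrank at h2
  rw [Finset.coe_singleton, Finset.card_singleton] at h2
  exact h2

omit [Finite V] in
theorem RKB_three (x y z : V) :
    Module.finrank (ZMod 2) (Submodule.span (ZMod 2) ({x, y, z} : Set V)) ≤ 3 := by
  classical
  have h2 := finrank_span_finset_le_card (R := ZMod 2) (M := V) {x, y, z}
  have h3 : ({x, y, z} : Finset V).card ≤ 3 := Finset.card_le_three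
  have h4 : (((({x, y, z} : Finset V)) : Set V)) = ({x, y, z} : Set V) := by simp
  rw [h4] at h2
  unfold Set.finrank at h2
  omega

theorem RKB_sub (f : Module.End (ZMod 2) V) (V1 X : Submodule (ZMod 2) V) {a c : ℕ}
    (hX : Module.finrank (ZMod 2) X ≤ a)
    (hc : Module.finrank (ZMod 2) V ≤ Module.finrank (ZMod 2) V1 + c)
    (hf : ∀ v ∈ V1, f v ∈ X) :
    Module.finrank (ZMod 2) (LinearMap.range f) ≤ a + c := by
  obtain ⟨C, hC⟩ := Submodule.exists_isCompl V1
  have h1 : LinearMap.range f ≤ X ⊔ C.map f := by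
    rintro _ ⟨v, rfl⟩
    have hv : v ∈ V1 ⊔ C := by rw [hC.sup_eq_top]; trivial
    obtain ⟨u, hu, w, hw, rfl⟩ := Submodule.mem_sup.1 hv
    rw [map_add]
    exact Submodule.add_mem_sup (hf u hu) (Submodule.mem_map_of_mem hw)
  have h2 := Submodule.finrank_mono h1
  have h3 := Submodule.finrank_add_le_finrank_add_finrank X (C.map f)
  have h4 := Submodule.finrank_map_le f C
  have h5 := Submodule.finrank_add_eq_of_isCompl hC
  omega

end aux

theorem RKB : RKB_stmt := by
  intro V _ _ _ c S J V1 hA hc h g x hx hxh hxg hxhg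
  have hn : 1 + (3 + c) + (3 + c) + 1 + 1 + 1 ≤ 10 + 2 * c := by omega
  have hs : x + (x + h) + (x + g) = x + h + g := by
    have h1 : x + (x + h) + (x + g) = (x + x) + (x + h + g) := by abel
    rw [h1, ZModModule.add_self, zero_add]
  obtain ⟨e, he⟩ := hA.four x hx (x + h) hxh (x + g) hxg (by rw [hs]; exact hxhg)
  rw [hs] at he
  obtain ⟨A, hAe⟩ : ∃ A : Module.End (ZMod 2) V, A = J x := ⟨_, rfl⟩
  obtain ⟨B, hBe⟩ : ∃ A : Module.End (ZMod 2) V, A = J (x + h) := ⟨_, rfl⟩
  obtain ⟨C, hCe⟩ : ∃ A : Module.End (ZMod 2) V, A = J (x + g) := ⟨_, rfl⟩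
  obtain ⟨E, hEe⟩ : ∃ A : Module.End (ZMod 2) V, A = J (x + h + g) := ⟨_, rfl⟩
  have hqA : Module.finrank (ZMod 2) (LinearMap.range (A * A + A + 1)) ≤ 1 :=
    RKB_one _ x (fun v => by rw [hAe]; exact hA.lc.quad x hx v)
  have hqB : Module.finrank (ZMod 2) (LinearMap.range (B * B + B + 1)) ≤ 1 :=
    RKB_one _ (x + h) (fun v => by rw [hBe]; exact hA.lc.quad (x + h) hxh v)
  have hqC : Module.finrank (ZMod 2) (LinearMap.range (C * C + C + 1)) ≤ 1 :=
    RKB_one _ (x + g) (fun v => by rw [hCe]; exact hA.lc.quad (x + g) hxg v)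
  have hqE : Module.finrank (ZMod 2) (LinearMap.range (E * E + E + 1)) ≤ 1 :=
    RKB_one _ (x + h + g) (fun v => by rw [hEe]; exact hA.lc.quad (x + h + g) hxhg v)
  have goal : Module.finrank (ZMod 2) (LinearMap.range ((A + B) * (A + C) + (A + C) * (A + B))) ≤
      10 + 2 * c := by
    obtain ⟨D, hD⟩ : ∃ D : Module.End (ZMod 2) V, D = A + B + C + E + e • 1 := ⟨_, rfl⟩
    have hDr : Module.finrank (ZMod 2) (LinearMap.range D) ≤ 3 + c := by
      refine RKB_sub D V1 _ (RKB_three x (x + h) (x + g)) hc ?_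
      intro v hv
      have := he v hv
      rw [hD, hAe, hBe, hCe, hEe]
      exact this
    have he2 : ∀ e : ZMod 2, e = 0 ∨ e = 1 := by decide
    rcases he2 e with rfl | rfl
    · have hE : E = A + B + C + D := by
        rw [hD]
        have h1 : A + B + C + (A + B + C + E + (0 : ZMod 2) • 1) =
          ((A + B + C) + (A + B + C)) + E := by rw [zero_smul]; abel
        rw [h1, ZModModule.add_self, zero_add]
      rw [RKB_id0 (fun t => ZModModule.add_self t) A B C D, ← hE]
      have h1 := RKB_add _ _ hqE (RKB_mulr (A + B + C) D hDr)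
      have h2 := RKB_add _ _ h1 (RKB_mull D (E + 1) hDr)
      have h3 := RKB_add _ _ h2 hqA
      have h4 := RKB_add _ _ h3 hqB
      exact (RKB_add _ _ h4 hqC).trans hn
    · have hE : E = A + B + C + 1 + D := by
        rw [hD]
        have h1 : A + B + C + 1 + (A + B + C + E + (1 : ZMod 2) • 1) =
          ((A + B + C + 1) + (A + B + C + 1)) + E := by rw [one_smul]; abel
        rw [h1, ZModModule.add_self, zero_add]
      rw [RKB_id1 (fun t => ZModModule.add_self t) A B C D, ← hE]
      have h1 := RKB_add _ _ hqE (RKB_mulr (A + B + C + 1) D hDr)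
      have h2 := RKB_add _ _ h1 (RKB_mull D (E + 1) hDr)
      have h3 := RKB_add _ _ h2 hqA
      have h4 := RKB_add _ _ h3 hqB
      exact (RKB_add _ _ h4 hqC).trans hn
  rw [hAe, hBe, hCe] at goal
  exact goal

end Pool.Agent.GPR
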