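import Mathlib
import Pool.Agent.helper25.QST.Defs

/-!
# Geometric points of binary `q`-Steiner systems are exponentially rare: definitions and rows

Page: `/team-store/MP_7a3aac_rare_helper31.md`.  RULES. Row `XXX`: file `Pool/Agent/<seat>/GPR/XXX.lean` with

  import Pool.Agent.helper31.GPR.Spec
  set_option autoImplicit false
  namespace Pool.Agent.GPR
  open Pool.Agent.helper25.QST
  theorem XXX (hYYY : YYY_stmt) ... : XXX_stmt := ...
  end Pool.Agent.GPR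

auxiliary lemmas prefixed `XXX_`.  In all rows `x + x = 0` (characteristic 2; `ZModModule.add_self` or `two_smul`-type lemmas: `(2 : ZMod 2) = 0`),
and `e : ZMod 2` is `0` or `1` (`fin_cases e`, or `e = 0 ∨ e = 1` by `decide`).  Cardinalities: `Module.natCard_eq_pow_finrank`, `Nat.card (ZMod 2) = 2`.
-/

set_option autoImplicit false

namespace Pool.Agent.GPR

open Pool.Agent.helper25.QST

section defs

variable {V : Type} [AddCommGroup V] [Module (ZMod 2) V]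

/-- the linear map `J` describes the geometric derived spread at `a` -/
structure Gp (𝓑 : Set (Submodule (ZMod 2) V)) (a : V) (J : V →ₗ[ZMod 2] V) : Prop where
  nz : a ≠ 0
  self : J a = 0
  quad : ∀ v, J (J v) + J v + v ∈ Submodule.span (ZMod 2) {a}
  out : ∀ v, v ∉ Submodule.span (ZMod 2) {a} → J v ∉ Submodule.span (ZMod 2) {a, v}
  blk : ∀ v, v ∉ Submodule.span (ZMod 2) {a} → ∀ B ∈ 𝓑, a ∈ B → v ∈ B → B = Submodule.span (ZMod 2) {a, v, J v}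

/-- the local facts F1, F3, F4 -/
structure Lc (S : Set V) (J : V → V →ₗ[ZMod 2] V) : Prop where
  nz : (0 : V) ∉ S
  self : ∀ x ∈ S, J x x = 0
  quad : ∀ x ∈ S, ∀ v, J x (J x v) + J x v + v ∈ Submodule.span (ZMod 2) {x}
  sym : ∀ x ∈ S, ∀ y ∈ S, J x y + J y x ∈ Submodule.span (ZMod 2) {x, y}
  ker : ∀ x ∈ S, ∀ y ∈ S, x ≠ y → ∀ e : ZMod 2,
    Module.finrank (ZMod 2) (LinearMap.ker (J x + J y + e • LinearMap.id)) ≤ 3

/-- the set `S ⊆ V1` with the property F5 -/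
structure Amb (S : Set V) (J : V → V →ₗ[ZMod 2] V) (V1 : Submodule (ZMod 2) V) : Prop where
  lc : Lc S J
  sub : ∀ x ∈ S, x ∈ V1
  four : ∀ x ∈ S, ∀ y ∈ S, ∀ z ∈ S, x + y + z ∈ S → ∃ e : ZMod 2, ∀ v ∈ V1,
    (J x + J y + J z + J (x + y + z)) v + e • v ∈ Submodule.span (ZMod 2) {x, y, z}

/-- the set `R_h` -/
def Rh (S : Set V) (J : V → V →ₗ[ZMod 2] V) (V1 : Submodule (ZMod 2) V) (h : V) : Set V :=
  {z | z ∈ S ∧ z + h ∈ S ∧ J z h ∈ V1}

/-- the set `Z` -/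
def Zh (S : Set V) (J : V → V →ₗ[ZMod 2] V) (V1 : Submodule (ZMod 2) V) (h g : V) : Set V :=
  {z | z ∈ S ∧ z + h ∈ S ∧ z + g ∈ S ∧ z + h + g ∈ S ∧ J z h ∈ V1 ∧ J z g ∈ V1}

/-- the space `W` -/
def Wh (x h : V) (D : V →ₗ[ZMod 2] V) : Submodule (ZMod 2) V := Submodule.span (ZMod 2) {x, h, D x, D h}

end defs

/-- the number of the subsets of a `d`-set with at most `c` elements -/
def KK (d c : ℕ) : ℕ := ∑ i ∈ Finset.range (c + 1), d.choose i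

/-- monomials -/
def mon (d : ℕ) (A : Finset (Fin d)) : (Fin d → ZMod 2) → ZMod 2 := fun t => ∏ i ∈ A, t i

/-- polynomial functions of degree at most `c` in `d` variables -/
def Mm (d c : ℕ) : Submodule (ZMod 2) ((Fin d → ZMod 2) → ZMod 2) :=
  Submodule.span (ZMod 2) {f | ∃ A : Finset (Fin d), A.card ≤ c ∧ f = mon d A}

/-! ## 1. Local facts -/

/-- **BEX** (short). Blocks. `L = span {x, v}` has dimension 2 (`x ≠ 0`, `v ∉ span {x}`; `finrank_span_pair`-type lemma or linear independence of `![x, v]`); `uniq`. -/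
def BEX_stmt : Prop := ∀ (V : Type) [AddCommGroup V] [Module (ZMod 2) V] [Finite V] (𝓑 : Set (Submodule (ZMod 2) V)), IsQSteiner 𝓑 →
  ∀ x v : V, x ≠ 0 → v ∉ Submodule.span (ZMod 2) {x} →
  ∃ B ∈ 𝓑, x ∈ B ∧ v ∈ B ∧ ∀ B' ∈ 𝓑, x ∈ B' → v ∈ B' → B' = B

/-- **GPT** (short-medium). Lift of the map of the definition. `q = mkQ (span {a})` has a linear section `s` (`exists_rightInverse_of_surjective` / `LinearMap.exists_rightInverse_of_surjective`);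
`J = s ∘ J0 ∘ q`: `J a = 0`, `q (J v) = J0 (q v)`. `quad`: `q` of the left side is `0` (`Submodule.Quotient.mk_eq_zero`). `out`: if `J v = α a + β v` and `β = 0` then `J (J v) = 0` and `J v + v ∈ span {a}` with `J v ∈ span {a}`: `v ∈ span {a}`;
if `β = 1`: `J (J v) = J v`, so `v ∈ span {a}`. `blk`: `J` maps `B` into `B + span {a} = B` (the definition of `Geometric`), so `span {a, v, J v} ≤ B`, both have dimension 3 (`Submodule.eq_of_le_of_finrank_eq`). -/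
def GPT_stmt : Prop := ∀ (V : Type) [AddCommGroup V] [Module (ZMod 2) V] [Finite V] (𝓑 : Set (Submodule (ZMod 2) V)), IsQSteiner 𝓑 →
  ∀ a : V, a ≠ 0 → Geometric 𝓑 a → ∃ J : V →ₗ[ZMod 2] V, Gp 𝓑 a J

/-- **SYM** (short-medium; from BEX). F1. If `x = y` both terms are `0`. Otherwise `y ∉ span {x}` and `x ∉ span {y}`; the block `B` of `x, y` is `span {x, y, J y}` and `span {y, x, J' x}`; `J' x = α x + β y + γ J y` and `γ = 0` is excluded by `out`. -/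
def SYM_stmt : Prop := ∀ (V : Type) [AddCommGroup V] [Module (ZMod 2) V] [Finite V] (𝓑 : Set (Submodule (ZMod 2) V)), IsQSteiner 𝓑 →
  ∀ (x y : V) (J J' : V →ₗ[ZMod 2] V), Gp 𝓑 x J → Gp 𝓑 y J' → J y + J' x ∈ Submodule.span (ZMod 2) {x, y}

/-- **KER** (medium; from BEX). F3. Let `B` be the block of `x, y` (`x ≠ y`, both `≠ 0`). The kernel is contained in `B` (then `Submodule.finrank_mono`, `dim`). Let `w ∉ B`, `J w + J' w + e w = 0`. `C` = the block of `x, w`, `C'` = the block of `y, w`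
(`w ∉ span {x}`, `w ∉ span {y}` as these are in `B`). `v = J w = J' w + e w` is in `C` and in `C'` (`blk`), `w ≠ 0`, `v ∉ span {w}` (`out`: `J w ∉ span {x, w}`), so `C = C'` (BEX for `w, v`). So `x, y ∈ C`, `C = B` (BEX for `x, y`), `w ∈ B`. -/
def KER_stmt : Prop := ∀ (V : Type) [AddCommGroup V] [Module (ZMod 2) V] [Finite V] (𝓑 : Set (Submodule (ZMod 2) V)), IsQSteiner 𝓑 →
  ∀ (x y : V) (J J' : V →ₗ[ZMod 2] V), Gp 𝓑 x J → Gp 𝓑 y J' → x ≠ y → ∀ e : ZMod 2,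
  Module.finrank (ZMod 2) (LinearMap.ker (J + J' + e • LinearMap.id)) ≤ 3

/-- **LOC** (short; from GPT, SYM, KER). Choose `J a` for the geometric points (`0` elsewhere). -/
def LOC_stmt : Prop := ∀ (V : Type) [AddCommGroup V] [Module (ZMod 2) V] [Finite V] (𝓑 : Set (Submodule (ZMod 2) V)), IsQSteiner 𝓑 →
  ∃ J : V → V →ₗ[ZMod 2] V, Lc {a | a ≠ 0 ∧ Geometric 𝓑 a} J

/-! ## 2. The subspace `V1` -/

/-- **FOU** (short). F2. `J x w + J w x ∈ span {x, w}` etc.; the sum of the `J w` terms is `J w (x + y + z + (x + y + z)) = 0`. -/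
def FOU_stmt : Prop := ∀ (V : Type) [AddCommGroup V] [Module (ZMod 2) V] (S : Set V) (J : V → V →ₗ[ZMod 2] V), Lc S J →
  ∀ x ∈ S, ∀ y ∈ S, ∀ z ∈ S, x + y + z ∈ S → ∀ w ∈ S,
  (J x + J y + J z + J (x + y + z)) w ∈ Submodule.span (ZMod 2) {x, y, z} ⊔ Submodule.span (ZMod 2) {w}

/-- **DIC** (short-medium). `E e = X.comap (N + e • id)`. `S ⊆ E 0 ∪ E 1` (`N w = u + α w`, `u ∈ X`). `E 0 ⊓ E 1 ≤ X`, so `finrank (E 0) + finrank (E 1) ≤ n + 3` (`Submodule.finrank_sup_add_finrank_inf_eq`). If both are `≤ n - L - 2` then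
`|S| ≤ 2 · 2 ^ (n-L-2) < 2 ^ (n-L)` (if `n < L + 2` treat it in the same way: `n = L + 1`, `|S| ≥ 2`; then some `E e` has dimension `≥ 0 = n - L - 1`: trivial). So some `E e` has dimension `≥ n - L - 1`, the other one `≤ L + 4`, and `S \ E e` is contained in the other one. -/
def DIC_stmt : Prop := ∀ (V : Type) [AddCommGroup V] [Module (ZMod 2) V] [Finite V] (n L : ℕ) (S : Set V) (N : V →ₗ[ZMod 2] V)
  (X : Submodule (ZMod 2) V), Module.finrank (ZMod 2) V = n → Module.finrank (ZMod 2) X ≤ 3 → L + 1 ≤ n → 2 ^ (n - L) ≤ S.ncard →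
  (∀ w ∈ S, N w ∈ X ⊔ Submodule.span (ZMod 2) {w}) →
  ∃ e : ZMod 2, (S \ {v | N v + e • v ∈ X}).ncard ≤ 2 ^ (L + 4)

/-- **SUB** (medium; from FOU, DIC). Among the subspaces `V'` with `(S \ V').ncard ≤ (n - finrank V') * 2 ^ (L + 4)` (`⊤` is one; there are finitely many subspaces, or strong induction / `Nat.find` on the dimension) take `V1` of minimal dimension. For `x, y, z, x+y+z ∈ S` FOU and DIC
(with `X = span {x, y, z}`, `finrank ≤ 3`) give `e` with `(S \ E).ncard ≤ 2 ^ (L + 4)`, `E = {v | N v + e • v ∈ X}` (a subspace). If `V1 ≤ E` fails then `V1 ⊓ E` has smaller dimension and is admissible. So `V1 ≤ E`. Put `c = n - finrank V1 ≤ n`: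
`(S ∩ V1).ncard ≥ 2 ^ (n-L) - n * 2 ^ (L+4) ≥ 2 ^ (n-L-1)` as `n * 2 ^ (L+4) * 2 ^ (L+1) ≤ 2 ^ n`; it is at most `Nat.card V1 = 2 ^ finrank V1`, so `n - L - 1 ≤ finrank V1`. `Lc` for the subset `S ∩ V1` is clear. -/
def SUB_stmt : Prop := ∀ (V : Type) [AddCommGroup V] [Module (ZMod 2) V] [Finite V] (n L : ℕ) (S : Set V) (J : V → V →ₗ[ZMod 2] V),
  Module.finrank (ZMod 2) V = n → Lc S J → L + 1 ≤ n → 2 ^ (n - L) ≤ S.ncard → n * 2 ^ (2 * L + 5) ≤ 2 ^ n →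
  ∃ V1 : Submodule (ZMod 2) V, Amb (S ∩ V1) J V1 ∧ 2 ^ (n - L - 1) ≤ (S ∩ (V1 : Set V)).ncard ∧
    n ≤ Module.finrank (ZMod 2) V1 + (L + 1)

/-! ## 3. The main lemma -/

/-- **MLA** (short). (i) of the page. -/
def MLA_stmt : Prop := ∀ (V : Type) [AddCommGroup V] [Module (ZMod 2) V] (S : Set V) (J : V → V →ₗ[ZMod 2] V), Lc S J →
  ∀ x h y : V, x ∈ S → x + h ∈ S → y ∈ S → (J x + J (x + h)) y + J y h ∈ Submodule.span (ZMod 2) {x, h, y}

/-- **MLB** (short-medium). (ii) of the page. `J y (J y h) ∈ J y h + h + span {y}` (`quad`). `J y h = J y (y + h) = J (y+h) y + u`, `u ∈ span {y, y+h}` (`sym`, `self`), `J (y+h) y = J (y+h) h` (`J (y+h) (y+h) = 0`). So with `k = J (y+h) h`: `J y h + k ∈ span {y, h}` and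
`J (y+h) (J y h) ∈ J (y+h) k + span {J (y+h) y, J (y+h) h} = J (y+h) k + span {k}`, `J (y+h) k ∈ k + h + span {y+h}`; all in `span {k, h, y} = span {J y h, h, y}`. -/
def MLB_stmt : Prop := ∀ (V : Type) [AddCommGroup V] [Module (ZMod 2) V] (S : Set V) (J : V → V →ₗ[ZMod 2] V), Lc S J →
  ∀ y h : V, y ∈ S → y + h ∈ S → (J y + J (y + h)) (J y h) ∈ Submodule.span (ZMod 2) {J y h, h, y}

/-- **ML** (short-medium; from MLA, MLB). (iii), (iv) of the page: `four` for `x, x + h, y` (the fourth point is `x + (x+h) + y = y + h`) at `v = J y h ∈ V1`. -/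
def ML_stmt : Prop := ∀ (V : Type) [AddCommGroup V] [Module (ZMod 2) V] (S : Set V) (J : V → V →ₗ[ZMod 2] V) (V1 : Submodule (ZMod 2) V),
  Amb S J V1 → ∀ x h y : V, x ∈ S → x + h ∈ S → y ∈ Rh S J V1 h →
  (J x + J (x + h)) ((J x + J (x + h)) y) ∈
    Submodule.span (ZMod 2) {(J x + J (x + h)) y, y} ⊔ Wh x h (J x + J (x + h))

/-- **KR2** (short). `U = (W.comap (D + e • id)).comap (D + e' • id)`: `finrank (W.comap f) ≤ finrank W + finrank (ker f)`, twice: `≤ 4 + 3 + 3`. -/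
def KR2_stmt : Prop := ∀ (V : Type) [AddCommGroup V] [Module (ZMod 2) V] [Finite V] (D : V →ₗ[ZMod 2] V) (W : Submodule (ZMod 2) V),
  (∀ e : ZMod 2, Module.finrank (ZMod 2) (LinearMap.ker (D + e • LinearMap.id)) ≤ 3) → Module.finrank (ZMod 2) W ≤ 4 → ∀ e e' : ZMod 2,
  {y : V | (D + e • (LinearMap.id : V →ₗ[ZMod 2] V)) ((D + e' • (LinearMap.id : V →ₗ[ZMod 2] V)) y) ∈ W}.ncard ≤ 2 ^ 10

/-- **MLP** (short-medium; from ML, KR2). ML': `D (D y) = α D y + β y + w`, `w ∈ W`. If `(α, β) ≠ (1, 1)` then `y` is in one of the three sets of KR2: `(e, e') = (0, 0)` for `(0, 0)`, `(0, 1)` for `(1, 0)`, `(1, 1)` for `(0, 1)`. `finrank (Wh ..) ≤ 4` (`finrank_span_le_card`-type). -/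
def MLP_stmt : Prop := ∀ (V : Type) [AddCommGroup V] [Module (ZMod 2) V] [Finite V] (S : Set V) (J : V → V →ₗ[ZMod 2] V)
  (V1 : Submodule (ZMod 2) V), Amb S J V1 → ∀ x h : V, x ∈ S → x + h ∈ S → h ≠ 0 →
  {y | y ∈ Rh S J V1 h ∧ (J x + J (x + h)) ((J x + J (x + h)) y) + (J x + J (x + h)) y + y ∉
    Wh x h (J x + J (x + h))}.ncard ≤ 3 * 2 ^ 10

/-! ## 4. Supersaturation -/

/-- **PLR** (short). The span of `KK d c` functions (`Finset.card` of the subsets with at most `c` elements: `Finset.powersetCard`, disjoint union over `i ≤ c`; `finrank_span_le_card`). -/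
def PLR_stmt : Prop := ∀ d c : ℕ, Module.finrank (ZMod 2) (Mm d c) ≤ KK d c

/-- **PLS** (short-medium). `Submodule.span_induction` in `f`: for `f = mon d A`: `a * mon d A` and `t i * mon d A = mon d (insert i A)` (`t i * t i = t i` in `ZMod 2`); `ℓ t = ∑ i, ℓ (e i) * t i` (`LinearMap.pi_apply_eq_sum_univ`). -/
def PLS_stmt : Prop := ∀ (d c : ℕ) (f : (Fin d → ZMod 2) → ZMod 2), f ∈ Mm d c → ∀ (ℓ : (Fin d → ZMod 2) →ₗ[ZMod 2] ZMod 2) (a : ZMod 2),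
  (fun t => (a + ℓ t) * f t) ∈ Mm d (c + 1)

/-- **PLI** (short; from PLR). The `p i` are linearly independent (evaluate at `t j`), in a space of dimension `≤ KK d c`: `LinearIndependent.fintype_card_le_finrank` in the submodule. -/
def PLI_stmt : Prop := ∀ (d c : ℕ) (ι : Type) [Fintype ι] (t : ι → Fin d → ZMod 2) (p : ι → (Fin d → ZMod 2) → ZMod 2),
  (∀ i, p i ∈ Mm d c) → (∀ i, p i (t i) = 1) → (∀ i j, i ≠ j → p i (t j) = 0) → Fintype.card ι ≤ KK d c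

/-- **SSC** (medium; from PLS, PLI). Coordinates: linear equivalences `φ : (Fin d → ZMod 2) ≃ₗ T` and `ψ : (V ⧸ V1) ≃ₗ (Fin c → ZMod 2)` (`finBasis`, `LinearEquiv.ofFinrankEq`). For `z ∈ I`: `p z t = ∏ j, (1 + ψ (B z (x0 + φ t)) j)`, in `Mm d c` by induction over the factors (PLS; the constant `1` is `mon d ∅`);
`t z = φ.symm (z + x0)`, so `x0 + φ (t z) = z`; `p z (t z') = 1` iff `B z z' = 0`. -/
def SSC_stmt : Prop := ∀ (V : Type) [AddCommGroup V] [Module (ZMod 2) V] [Finite V] (V1 T : Submodule (ZMod 2) V) (d c : ℕ) (x0 : V)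
  (I : Set V) (B : V → V →ₗ[ZMod 2] (V ⧸ V1)), Module.finrank (ZMod 2) T = d → Module.finrank (ZMod 2) (V ⧸ V1) = c →
  (∀ z ∈ I, z + x0 ∈ T) → (∀ z ∈ I, B z z = 0) → (∀ z ∈ I, ∀ z' ∈ I, z ≠ z' → B z z' ≠ 0) → I.ncard ≤ KK d c

/-- **SS** (medium; from SSC). Let `F' = {z ∈ F | ∃ z' ∈ F, z' ≠ z, z' + z ∈ T, B z z' = 0}`. In every coset of `T` in `V1` (`2 ^ d * (number) = Nat.card V1`; e.g. fibres of `F → V1 ⧸ T` or of `mkQ T` on `V1`) the set `F \ F'` has at most `KK d c` elements (SSC). So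
`2 ^ d * (F \ F').ncard ≤ KK d c * Nat.card V1 ≤ F.ncard * 2 ^ (d-1)`, so `2 * F'.ncard ≥ F.ncard`. For `z ∈ F'` with `z'` let `g = z + z' ∈ T \ 0`: `z + g = z' ∈ F`, `B z g = B z z + B z z' = 0`. `T \ 0` has `2 ^ d - 1` elements: pigeonhole (some `g` has at least `F'.ncard / 2 ^ d`). -/
def SS_stmt : Prop := ∀ (V : Type) [AddCommGroup V] [Module (ZMod 2) V] [Finite V] (V1 T : Submodule (ZMod 2) V) (d c : ℕ)
  (F : Set V) (B : V → V →ₗ[ZMod 2] (V ⧸ V1)), Module.finrank (ZMod 2) T = d → 1 ≤ d → Module.finrank (ZMod 2) (V ⧸ V1) = c →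
  T ≤ V1 → (∀ z ∈ F, z ∈ V1) → (∀ z ∈ F, B z z = 0) → KK d c * Nat.card V1 ≤ F.ncard * 2 ^ (d - 1) → F.Nonempty →
  ∃ g ∈ T, g ≠ 0 ∧ F.ncard ≤ 2 ^ (d + 1) * {z | z ∈ F ∧ z + g ∈ F ∧ B z g = 0}.ncard

/-- **NU1** (short). `KK (3 l) c ≤ 2 ^ c * (3/2) ^ (3 l)` (`∑_{i ≤ c} C(d,i) 2 ^ (d-i) ≤ 3 ^ d`, so `KK d c * 2 ^ (d-c) ≤ 3 ^ d`), `2 * 27 ^ l ≤ 32 ^ l` for `l ≥ 5` (induction). -/
def NU1_stmt : Prop := ∀ l c : ℕ, 5 ≤ l → c ≤ l → KK (3 * l) c ≤ 2 ^ (c + 2 * l - 1)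

/-- **NU2** (short-medium). `∑_{i ≤ c} C(d,i) 7 ^ (d-i) ≤ 8 ^ d`, so `KK d c * 7 ^ (d-c) ≤ 8 ^ d`; with `d = 8 l`, `c ≤ l`: `KK ≤ 7 ^ c (8/7) ^ (8 l)`, `7 ^ c ≤ 2 ^ c (7/2) ^ l`, `(7/2 · 8^8/7^8) ^ l = (8^8 / (2 · 7^7)) ^ l`, `4 · (8^8) ^ l ≤ (2 · 16 · 7^7) ^ l` for `l ≥ 4` (`8^8 / 7^7 ≤ 20.38`, `4 · 20.38 ^ 4 ≤ 32 ^ 4`). -/
def NU2_stmt : Prop := ∀ l c : ℕ, 5 ≤ l → c ≤ l → KK (8 * l) c ≤ 2 ^ (c + 4 * l - 2)

/-- **TSP** (short). In `V1` there is a hyperplane (or any complement in `V1`) not containing `h` if `h ∈ V1`; a subspace of it of dimension `d`. (If `h ∉ V1` any subspace of `V1`.) -/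
def TSP_stmt : Prop := ∀ (V : Type) [AddCommGroup V] [Module (ZMod 2) V] [Finite V] (V1 : Submodule (ZMod 2) V) (h : V) (d : ℕ),
  h ≠ 0 → d + 1 ≤ Module.finrank (ZMod 2) V1 → ∃ T : Submodule (ZMod 2) V, T ≤ V1 ∧ Module.finrank (ZMod 2) T = d ∧ h ∉ T

/-- **CHO** (medium; from SS, NU1, NU2, TSP). Section 5 of the page. `B z = (mkQ V1) ∘ J z`, `c = finrank (V ⧸ V1) = n - finrank V1 ≤ l`, `Nat.card V1 = 2 ^ (n - c)`. (1) `d = 3 l`, `F = S`: `KK * 2 ^ (n-c) ≤ 2 ^ (c+2l-1+n-c) = 2 ^ (n+2l-1) ≤ 2 ^ (n-l) * 2 ^ (3l-1)`.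
`h ≠ 0`, `F1 = Rh S J V1 h`, `2 ^ (n-l) ≤ 2 ^ (3l+1) * F1.ncard`, so `2 ^ (n-4l-1) ≤ F1.ncard`. (2) `d = 8 l`, `F = F1`, `T` with `h ∉ T`: `KK * 2 ^ (n-c) ≤ 2 ^ (n+4l-2) ≤ 2 ^ (n-4l-1) * 2 ^ (8l-1)`. The set for `g` is contained in `Zh S J V1 h g` (`z + g ∈ Rh h` gives `z + g + h ∈ S`). -/
def CHO_stmt : Prop := ∀ (V : Type) [AddCommGroup V] [Module (ZMod 2) V] [Finite V] (n l : ℕ) (S : Set V) (J : V → V →ₗ[ZMod 2] V)
  (V1 : Submodule (ZMod 2) V), Module.finrank (ZMod 2) V = n → 5 ≤ l → 14 * l + 23 ≤ n → Amb S J V1 → 2 ^ (n - l) ≤ S.ncard →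
  n ≤ Module.finrank (ZMod 2) V1 + l → ∃ h g : V, h ≠ 0 ∧ g ≠ 0 ∧ h ≠ g ∧ 2 ^ (n - 12 * l - 2) ≤ (Zh S J V1 h g).ncard

/-! ## 5. The contradiction -/

/-- **RKA** (medium; from MLP). (a) of the page. `Dh = J x + J (x+h)`, `Dg = J x + J (x+g)`, `Dh + Dg = J (x+h) + J (x+g)` (`x + g = (x+h) + (h+g)`: MLP for the points `x`, `x` and `x+h` and the differences `h`, `g`, `h+g`; `Zh` is contained in the three sets `Rh`). `W = span` of the 9 vectors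
`x, h, g, Dh x, Dh h, Dh g, Dg x, Dg h, Dg g`. At most `3 · 3 · 2 ^ 10 < 2 ^ 14` elements of `Zh` are exceptional; for the others `Dh (Dg z) + Dg (Dh z) + z ∈ W`. Their span `Y` has `≥ 2 ^ (n-12l-3)` elements, so dimension `≥ n - 12 l - 3`; on `Y` the map `M` has values in `W`:
`finrank (range M) ≤ 9 + (n - finrank Y)` (e.g. `Y ≤ W.comap M`, `n - finrank (W.comap M) ≥ finrank (range M) - finrank W`). -/
def RKA_stmt : Prop := ∀ (V : Type) [AddCommGroup V] [Module (ZMod 2) V] [Finite V] (n l : ℕ) (S : Set V) (J : V → V →ₗ[ZMod 2] V)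
  (V1 : Submodule (ZMod 2) V), Module.finrank (ZMod 2) V = n → 14 * l + 23 ≤ n → Amb S J V1 → ∀ h g x : V, h ≠ 0 → g ≠ 0 → h ≠ g →
  x ∈ Zh S J V1 h g → 2 ^ (n - 12 * l - 2) ≤ (Zh S J V1 h g).ncard →
  Module.finrank (ZMod 2) (LinearMap.range ((J x + J (x + h)) ∘ₗ (J x + J (x + g)) + (J x + J (x + g)) ∘ₗ (J x + J (x + h)) +
    LinearMap.id)) ≤ 12 * l + 12

/-- **RKB** (medium). (b) of the page. `four` for `x, x+h, x+g`: the fourth point is `x + h + g`; `Δ = J x + J (x+h) + J (x+g) + J (x+h+g) + e • id` maps `V1` into a space of dimension `≤ 3`: `finrank (range Δ) ≤ 3 + c`. Then the identity of the page and `finrank (range (f + g)) ≤ ..` (`LinearMap.finrank_range_add_le` or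
`LinearMap.rank_add_le`), `range (f ∘ g) ≤ range f`, `finrank (range (f ∘ g)) ≤ finrank (range g)`, and `quad`: rank `≤ 1`. -/
def RKB_stmt : Prop := ∀ (V : Type) [AddCommGroup V] [Module (ZMod 2) V] [Finite V] (c : ℕ) (S : Set V) (J : V → V →ₗ[ZMod 2] V)
  (V1 : Submodule (ZMod 2) V), Amb S J V1 → Module.finrank (ZMod 2) V ≤ Module.finrank (ZMod 2) V1 + c → ∀ h g x : V,
  x ∈ S → x + h ∈ S → x + g ∈ S → x + h + g ∈ S →
  Module.finrank (ZMod 2) (LinearMap.range ((J x + J (x + h)) ∘ₗ (J x + J (x + g)) + (J x + J (x + g)) ∘ₗ (J x + J (x + h)))) ≤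
    10 + 2 * c

/-- **FIN** (short; from CHO, RKA, RKB). `Zh` is nonempty, `x ∈ Zh`; `id = (M + id) + M`: `n ≤ (12 l + 12) + (10 + 2 l)`. -/
def FIN_stmt : Prop := ∀ (V : Type) [AddCommGroup V] [Module (ZMod 2) V] [Finite V] (n l : ℕ) (S : Set V) (J : V → V →ₗ[ZMod 2] V)
  (V1 : Submodule (ZMod 2) V), Module.finrank (ZMod 2) V = n → 5 ≤ l → 14 * l + 23 ≤ n → Amb S J V1 → 2 ^ (n - l) ≤ S.ncard →
  n ≤ Module.finrank (ZMod 2) V1 + l → False

/-- **NU3** (short). -/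
def NU3_stmt : Prop := ∀ n L : ℕ, 14 * L + 37 ≤ n → n * 2 ^ (2 * L + 5) ≤ 2 ^ n

/-- **MAIN** (short; from LOC, SUB, FIN, NU3). By contradiction, `l = L + 1`. -/
def MAIN_stmt : Prop := ∀ (V : Type) [AddCommGroup V] [Module (ZMod 2) V] [Finite V] (n L : ℕ) (𝓑 : Set (Submodule (ZMod 2) V)),
  Module.finrank (ZMod 2) V = n → IsQSteiner 𝓑 → 4 ≤ L → 14 * L + 37 ≤ n →
  {a : V | a ≠ 0 ∧ Geometric 𝓑 a}.ncard < 2 ^ (n - L)

end Pool.Agent.GPR
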